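import Pool.Agent.Mu673.BaseEnd
import Pool.Agent.Mu673.Base95.D

/-!
Size, symmetry and label checks of the base certificate.
-/

set_option autoImplicit false
set_option maxRecDepth 100000

namespace MP61673a.KC.Base95

theorem bnd_ok : bndS dat = true := by decide +kernel

theorem sym_ok : symS dat = true := by decide +kernel

theorem seg_ok : chkG dat = true := by decide +kernel

theorem j0_ok : chkJ (segs2 95) f0 0 = true := by decide +kernel

theorem j1_ok : chkJ (segs2 95) f1 1 = true := by decide +kernel

theorem lab_ok : chkY dat lab [] 2 101 104 122 100490 100000 = true := by decide +kernel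

end MP61673a.KC.Base95
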