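import Pool.Agent.Mu673.KCsegB
import Pool.Agent.Mu673.Base95.D

/-!
Main check, samplers 64, .., 79.
-/

set_option autoImplicit false
set_option maxRecDepth 100000

namespace MP61673a.KC.Base95

theorem main4 : segCheckB 8 dat 64 80 = true := by decide +kernel

end MP61673a.KC.Base95
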