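import Pool.Agent.Mu673.Base95.C
import Pool.Agent.Mu673.Base95.M0
import Pool.Agent.Mu673.Base95.M1
import Pool.Agent.Mu673.Base95.M2
import Pool.Agent.Mu673.Base95.M3
import Pool.Agent.Mu673.Base95.M4
import Pool.Agent.Mu673.Base95.M5
import Pool.Agent.Mu673.Base95.M6
import Pool.Agent.Mu673.Base95.M7
import Pool.Agent.Mu673.Base95.M8
import Pool.Agent.Mu673.Base95.M9
import Pool.Agent.Mu673.Base95.M10
import Pool.Agent.Mu673.Base95.M11

/-!
The base certificate (N = 95): conclusion.
-/

set_option autoImplicit false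
set_option maxRecDepth 100000

namespace MP61673a.KC.Base95

theorem vN_dat : vN dat.segs = 192 := rfl

theorem main_all : segCheck dat 0 (vN dat.segs) = true := by
  have hV : vN dat.segs ≤ 2 ^ 8 := by rw [vN_dat]; norm_num
  have hB : dat.Bd + 412316860416 < 2 ^ 39 := by
    change 6 + 412316860416 < 2 ^ 39
    norm_num
  have h0 : segCheck dat 0 16 = true := segCheck_of_B dat bnd_ok hV hB main0 (by rw [vN_dat] <;> norm_num)
  have h1 : segCheck dat 16 32 = true := segCheck_of_B dat bnd_ok hV hB main1 (by rw [vN_dat] <;> norm_num)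
  have h2 : segCheck dat 32 48 = true := segCheck_of_B dat bnd_ok hV hB main2 (by rw [vN_dat] <;> norm_num)
  have h3 : segCheck dat 48 64 = true := segCheck_of_B dat bnd_ok hV hB main3 (by rw [vN_dat] <;> norm_num)
  have h4 : segCheck dat 64 80 = true := segCheck_of_B dat bnd_ok hV hB main4 (by rw [vN_dat] <;> norm_num)
  have h5 : segCheck dat 80 96 = true := segCheck_of_B dat bnd_ok hV hB main5 (by rw [vN_dat] <;> norm_num)
  have h6 : segCheck dat 96 112 = true := segCheck_of_B dat bnd_ok hV hB main6 (by rw [vN_dat] <;> norm_num)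
  have h7 : segCheck dat 112 128 = true := segCheck_of_B dat bnd_ok hV hB main7 (by rw [vN_dat] <;> norm_num)
  have h8 : segCheck dat 128 144 = true := segCheck_of_B dat bnd_ok hV hB main8 (by rw [vN_dat] <;> norm_num)
  have h9 : segCheck dat 144 160 = true := segCheck_of_B dat bnd_ok hV hB main9 (by rw [vN_dat] <;> norm_num)
  have h10 : segCheck dat 160 176 = true := segCheck_of_B dat bnd_ok hV hB main10 (by rw [vN_dat] <;> norm_num)
  have h11 : segCheck dat 176 192 = true := segCheck_of_B dat bnd_ok hV hB main11 (by rw [vN_dat] <;> norm_num)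
  rw [vN_dat]
  exact (segCheck_join dat (segCheck_join dat (segCheck_join dat (segCheck_join dat (segCheck_join dat (segCheck_join dat (segCheck_join dat (segCheck_join dat (segCheck_join dat (segCheck_join dat (segCheck_join dat h0 h1 (by norm_num) (by norm_num)) h2 (by norm_num) (by norm_num)) h3 (by norm_num) (by norm_num)) h4 (by norm_num) (by norm_num)) h5 (by norm_num) (by norm_num)) h6 (by norm_num) (by norm_num)) h7 (by norm_num) (by norm_num)) h8 (by norm_num) (by norm_num)) h9 (by norm_num) (by norm_num)) h10 (by norm_num) (by norm_num)) h11 (by norm_num) (by norm_num))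

/-- THE BASE BOUND -/
theorem base {n : ℕ} (hn : 122 ≤ n) {A : Finset ℕ} (h : Lift.IsMaximalThreeFree n A) :
    100000 * n ≤ 100490 * A.card ^ 2 :=
  base_bound (M := 94) (f0 := f0) (f1 := f1) rfl rfl rfl j0_ok j1_ok bnd_ok sym_ok seg_ok lab_ok
    (by decide) (by decide) (by decide) (by decide) (by decide) main_all hn h

end MP61673a.KC.Base95
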